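import Pool.Agent.H74.TR.LogLower

/-!
`MP_99b159_lc`, Q1 (partial): a logarithmic lower bound, valid for every `c ≥ 1`, for the state
complexity `s c` of the shift by `c` of the Tribonacci word.
-/

namespace Pool.Agent.Results.MP_99b159_lc.ShiftLogLower

open Pool.Agent.H74.TR

theorem result :
    (∀ c k : ℕ, W k ≤ c → c < W (k + 1) → k + 2 ≤ s c) ∧
    (∀ c : ℕ, 1 ≤ c → 2 * c < 2 ^ s c) :=
  ⟨s_log, s_log2⟩

end Pool.Agent.Results.MP_99b159_lc.ShiftLogLower
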