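import Pool.Agent.H74.TR.Main

/-!
`MP_99b159_lc`, Q1 (partial): the state complexity `s c` of the shift by `c` of the Tribonacci
word grows at least like a power of `c` along the Tribonacci numbers `c = W (3K+1)`
(in contrast with the `O(log c)` behaviour in the Fibonacci setting).
-/

namespace Pool.Agent.Results.MP_99b159_lc.ShiftPowerLower

open Pool.Agent.H74.TR

theorem result :
    (∀ K : ℕ, 2 ^ K ≤ s (W (3 * K + 1))) ∧
    (∀ N : ℕ, ∃ c : ℕ, N ≤ c ∧ c ≤ 2 * s c ^ 3) ∧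
    (∀ C d N : ℕ, ∃ c : ℕ, N ≤ c ∧ C * (Nat.log 2 c) ^ d < s c) := by
  refine ⟨s_lower, fun N => ⟨W (3 * N + 1), ?_, cube N⟩, polylog⟩
  have := W_ge (3 * N + 1)
  omega

end Pool.Agent.Results.MP_99b159_lc.ShiftPowerLower
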