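import Pool.Agent.H74.TR.Final

/-!
`MP_99b159_lc`, Q1 (partial): a sublinear upper bound `s c = O(c^(5/9))`, valid for all `c`, for
the state complexity of the shift by `c` of the Tribonacci word.
-/

namespace Pool.Agent.Results.MP_99b159_lc.ShiftPowerUpper

open Pool.Agent.H74.TR

theorem result :
    (∀ c : ℕ, HasDFAO (fun i => trib (i + c)) (s c)) ∧
    ∃ C : ℕ, ∀ c : ℕ, 1 ≤ c → s c ^ 9 ≤ C * c ^ 5 :=
  ⟨s_spec, s_upper⟩

end Pool.Agent.Results.MP_99b159_lc.ShiftPowerUpper
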